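import Pool.Agent.H52.P4.Chr

/-!
# The unit covector of the first coordinate of the group without a label with gain

`low_solve`: a row which vanishes from `l` on is a combination of the covectors with the leading
coordinates `g < l`. `unit_cov`: the unit covector at `l`, at the exact point and at the line, up to
a combination of the known covectors.
-/

set_option autoImplicit false

namespace Pool.TT30

open Finset Real Matrix
open Pool.LBL (Uni Ld)
open Pool.P4 (uni_inv)

/-- A row which vanishes from `l` on is a combination of the covectors with the leading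
coordinates `g < l`. -/
theorem low_solve {c : ℕ} (l : Fin c) {F : Fin c → Fin c → ℝ} {G B : ℝ} (hG : 1 ≤ G)
    (hF : ∀ g, g < l → Ld g (F g) ∧ ∀ i, |F g i| ≤ G) {v : Fin c → ℝ} (hv : ∀ u, l ≤ u → v u = 0)
    (hB : ∀ u, |v u| ≤ B) : ∃ rr : Fin c → ℝ, (∀ g, |rr g| ≤ c * (B * (1 + c * G) ^ c)) ∧
      (∀ g, l ≤ g → rr g = 0) ∧ ∀ u, ∑ g, rr g * F g u = v u := by
  have hB0 : 0 ≤ B := (abs_nonneg _).trans (hB l)
  obtain ⟨N, hN⟩ : ∃ N : Matrix (Fin c) (Fin c) ℝ,
      N = fun i j => if i < l then F i j else (1 : Matrix (Fin c) (Fin c) ℝ) i j := ⟨_, rfl⟩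
  have hU : Uni N := by
    constructor
    · intro i
      rw [hN]
      simp only
      split_ifs with h
      · exact (hF i h).1.1
      · rw [Matrix.one_apply_eq]
    · intro i j hij
      rw [hN]
      simp only
      split_ifs with h
      · exact (hF i h).1.2 j hij
      · rw [Matrix.one_apply_ne hij.ne]
  have hNb : ∀ i j, |N i j| ≤ G := by
    intro i j
    rw [hN]
    simp only
    split_ifs with h
    · exact (hF i h).2 j
    · rw [Matrix.one_apply]
      split_ifs
      · rw [abs_one]
        exact hG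
      · rw [abs_zero]
        linarith
  have hinv := uni_inv hU (by linarith) hNb
  have hdet : IsUnit N.det := by
    rw [hU.det]
    exact isUnit_one
  obtain ⟨rr, hrr⟩ : ∃ rr : Fin c → ℝ, rr = v ᵥ* N⁻¹ := ⟨_, rfl⟩
  have hmul : rr ᵥ* N = v := by
    rw [hrr, Matrix.vecMul_vecMul, Matrix.nonsing_inv_mul N hdet, Matrix.vecMul_one]
  have h0 : ∀ g, l ≤ g → rr g = 0 := by
    intro g hg
    have h1 := congrFun hmul g
    have h2 : (rr ᵥ* N) g = rr g := by
      show ∑ i, rr i * N i g = rr g
      rw [Finset.sum_eq_single g]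
      · rw [hU.one, mul_one]
      · intro i _ hi
        have h3 : N i g = 0 := by
          rw [hN]
          simp only
          split_ifs with h
          · exact (hF i h).1.2 g (h.trans_le hg)
          · exact Matrix.one_apply_ne hi
        rw [h3, mul_zero]
      · intro h
        exact absurd (mem_univ g) h
    rw [← h2, h1]
    exact hv g hg
  refine ⟨rr, fun g => ?_, h0, fun u => ?_⟩
  · rw [hrr]
    show |∑ u, v u * N⁻¹ u g| ≤ _
    calc |∑ u, v u * N⁻¹ u g| ≤ ∑ u, |v u * N⁻¹ u g| := Finset.abs_sum_le_sum_abs _ _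
      _ ≤ ∑ _u : Fin c, B * (1 + c * G) ^ c := by
          refine Finset.sum_le_sum fun u _ => ?_
          rw [abs_mul]
          exact mul_le_mul (hB u) (hinv u g) (abs_nonneg _) hB0
      _ = _ := by rw [Finset.sum_const, Finset.card_univ, Fintype.card_fin, nsmul_eq_mul]
  · rw [← congrFun hmul u]
    show _ = ∑ g, rr g * N g u
    refine Finset.sum_congr rfl fun g _ => ?_
    rcases lt_or_ge g l with h | h
    · rw [hN]
      simp only
      rw [if_pos h]
    · rw [h0 g h, zero_mul, zero_mul]

/-- **The unit covector**: if all the coordinates of the group before `l` have known covectors, the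
unit covector at `l` is conserved by the change of the charts, up to a combination of the known
covectors. -/
theorem unit_cov {c : ℕ} (l : Fin c) {F : Fin c → Fin c → ℝ} {G B : ℝ} (hG : 1 ≤ G)
    (Fz : Finset (Fin c)) (hFz : ∀ g, g < l → g ∈ Fz)
    (hF : ∀ g ∈ Fz, Ld g (F g) ∧ ∀ i, |F g i| ≤ G)
    {M : Matrix (Fin c) (Fin c) ℝ} (hM : Uni M) (hB : ∀ i j, |M i j| ≤ B) :
    ∃ rr : Fin c → ℝ, (∀ g, |rr g| ≤ c * (B * (1 + c * G) ^ c)) ∧
      ∀ u, ((Pi.single l 1 : Fin c → ℝ) ᵥ* M) u - (Pi.single l 1 : Fin c → ℝ) u +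
        ∑ g ∈ Fz, rr g * F g u = 0 := by
  classical
  have hB0 : 0 ≤ B := (abs_nonneg _).trans (hB l l)
  obtain ⟨v, hv⟩ : ∃ v : Fin c → ℝ, v = fun u => if u < l then - M l u else 0 := ⟨_, rfl⟩
  obtain ⟨rr, h1, h2, h3⟩ := low_solve l hG (fun g hg => hF g (hFz g hg)) (v := v) (B := B)
    (fun u hu => by rw [hv]; simp only; rw [if_neg (not_lt.2 hu)])
    (fun u => by
      rw [hv]
      simp only
      split_ifs
      · rw [abs_neg]
        exact hB l u
      · rw [abs_zero]
        exact hB0)
  refine ⟨rr, h1, fun u => ?_⟩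
  have e1 : ∑ g ∈ Fz, rr g * F g u = ∑ g, rr g * F g u := by
    refine Finset.sum_subset (Finset.subset_univ _) fun g _ hg => ?_
    rw [h2 g (not_lt.1 fun h => hg (hFz g h)), zero_mul]
  rw [e1, h3 u, Matrix.single_one_vecMul, hv]
  simp only [Matrix.row]
  rcases lt_trichotomy u l with h | h | h
  · rw [if_pos h, Pi.single_eq_of_ne h.ne]
    ring
  · rw [h, if_neg (lt_irrefl _), Pi.single_eq_same, hM.one]
    ring
  · rw [if_neg h.not_gt, Pi.single_eq_of_ne h.ne', hM.zero l u h]
    ring

end Pool.TT30
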