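import Pool.Agent.H30.TT.Cov
import Pool.Agent.H25.P4.GfJ
import Pool.Agent.H52.P4.Chr2

/-!
# (T): the label of a cell whose own slopes are all affine in the time

`labT`: in the letters of P4. If the own slopes of all the coordinates of the group over the slow
coordinates are affine in the time with coefficients which are functions of the line, there is a new
thin label of the first coordinate of the group which is in `R`, or of the target. The covector is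
the unit covector of this coordinate; the contact coordinates of the group before it have known
covectors (`gfS`).
-/

set_option autoImplicit false

namespace Pool.TT30

open Finset Real MvPolynomial Matrix
open Pool.Agent.H49.Ent Pool.Agent.H32.Dense Pool.STK Pool.STAT Pool.MIC.Frm Pool.MIC7 Pool.FRM
open Pool.GSD Pool.P4
open Pool.BFL (Pb)
open Pool.LBL (Ld Uni)
open Pool.STAT.Glu (kN)

/-- The unit covector has its leading coordinate. -/
theorem ld_single {c : ℕ} (l : Fin c) : Ld l (Pi.single l (1 : ℝ) : Fin c → ℝ) :=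
  ⟨Pi.single_eq_same _ _, fun _ h => Pi.single_eq_of_ne h.ne' _⟩

theorem single_le {c : ℕ} (l u : Fin c) {N : ℝ} (hN : 1 ≤ N) :
    |(Pi.single l (1 : ℝ) : Fin c → ℝ) u| ≤ N := by
  by_cases h : u = l
  · rw [h, Pi.single_eq_same, abs_one]
    exact hN
  · rw [Pi.single_eq_of_ne h, abs_zero]
    linarith

/-- The first coordinate of the group which is in `R` or the target. -/
theorem first_l {c : ℕ} {gs : Fin c → ℕ} {n : ℕ} (R : ℕ → Prop) {n₀ : Fin c} (h : gs n₀ = n) :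
    ∃ l : Fin c, (gs l = n ∨ R (gs l)) ∧ ∀ g, g < l → ¬ (gs g = n ∨ R (gs g)) := by
  classical
  obtain ⟨s, hs⟩ : ∃ s : Finset (Fin c), s = univ.filter (fun l => gs l = n ∨ R (gs l)) :=
    ⟨_, rfl⟩
  have hne : s.Nonempty := ⟨n₀, by rw [hs, mem_filter]; exact ⟨mem_univ _, Or.inl h⟩⟩
  have hm : ∀ x ∈ s, gs x = n ∨ R (gs x) := by
    intro x hx
    rw [hs, mem_filter] at hx
    exact hx.2
  refine ⟨s.min' hne, hm _ (s.min'_mem hne), fun g hg hg' => ?_⟩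
  · have : g ∈ s := by
      rw [hs, mem_filter]
      exact ⟨mem_univ _, hg'⟩
    exact absurd (s.min'_le g this) (not_le.2 hg)

theorem num_T {c z : ℕ} {c₃ C₂ : ℝ} (hC₂ : 0 ≤ C₂) (hz : (1 : ℝ) ≤ z) :
    (c : ℝ) * (exp (c₃ * z) * (1 + c * exp (C₂ * z)) ^ c) ≤
      exp ((c + c₃ + c * (c + C₂)) * z) := by
  have hc0 : (0 : ℝ) ≤ c := Nat.cast_nonneg c
  have h1 : (c : ℝ) + 1 ≤ exp (c * z) := by
    have h2 := Real.add_one_le_exp ((c : ℝ) * z)
    have h3 : (c : ℝ) ≤ c * z := le_mul_of_one_le_right hc0 hz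
    linarith
  have h2 : (1 : ℝ) + c * exp (C₂ * z) ≤ exp ((c + C₂) * z) := by
    have h3 : (1 : ℝ) ≤ exp (C₂ * z) := Real.one_le_exp (by positivity)
    calc (1 : ℝ) + c * exp (C₂ * z) ≤ (c + 1) * exp (C₂ * z) := by linarith
      _ ≤ exp (c * z) * exp (C₂ * z) := mul_le_mul_of_nonneg_right h1 (exp_pos _).le
      _ = _ := by
        rw [← exp_add]
        ring_nf
  have h3 : (1 + c * exp (C₂ * z)) ^ c ≤ exp (c * (c + C₂) * z) := by
    calc (1 + c * exp (C₂ * z)) ^ c ≤ exp ((c + C₂) * z) ^ c :=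
          pow_le_pow_left₀ (by positivity) h2 c
      _ = _ := by
        rw [← exp_nat_mul]
        ring_nf
  calc (c : ℝ) * (exp (c₃ * z) * (1 + c * exp (C₂ * z)) ^ c) ≤
        exp (c * z) * (exp (c₃ * z) * exp (c * (c + C₂) * z)) := by
        refine mul_le_mul (by linarith) (mul_le_mul_of_nonneg_left h3 (exp_pos _).le)
          (by positivity) (exp_pos _).le
    _ = _ := by
        rw [← exp_add, ← exp_add]
        ring_nf

open Classical in
/-- **(T), the label of a cell.** -/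
theorem labT (n K K' c k : ℕ) (C₀ C₁ Cu : ℝ) (gam : ℕ → ℝ) (hC₀ : 0 ≤ C₀) (hC₁ : 0 ≤ C₁)
    (hCu : 0 ≤ Cu) : ∃ F : ℝ, 0 ≤ F ∧ ∀ C : ℝ, F ≤ C → ∃ C₄ : ℝ, 1 ≤ C₄ ∧
    ∀ (D : NDat2) (U : GnL D) (R : ℕ → Prop) (J a₀ w₀ z M w i j r r' r'' a y X Q A : ℕ)
      (lam : ℕ → ℝ) (κ : ℝ) (q : D.Ω → ℝ) (E : D.Ω → Prop) (P : D.Γ × D.Γ → ℕ → PN)
      (S : D.Ω → ℕ → ℕ → ℝ) (ys : Fin k → ℕ) (gs : Fin c → ℕ) (n₀ : Fin c),
      Hyp D n K K' J a₀ w₀ z M w i j r r' r'' y X lam gam κ C₁ C q E P S ys gs →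
      Plc n gam y r r' r'' a M i j →
      Geo D n K' J w₀ z i j r r' r'' gam C₀ (exp (C₀ * z) / 2 ^ (y * z)) q E P S →
      (∀ ω, E ω → 0 < q ω ∧ GoodS D n K' w₀ z M C₀ ω ∧
        FrP D n K' z i j r C₀ (P (bb D i j r ω)) ω) →
      U.Ok n K J a₀ w₀ z M Q R C₁ q → gs n₀ = n →
      ∀ (N δ η' : ℝ) (e0 e1 : LT D → Fin c → Fin k → ℝ) (Ev : D.Ω → Prop), 1 ≤ N → 0 ≤ δ →
        (∀ x u a, |e0 x u a| ≤ N ∧ |e1 x u a| * 2 ^ X ≤ N) → η' ≤ Pb q Ev →
        (∀ ω, Ev ω → E ω ∧ GoodU D U n J w₀ z M R Cu ω) →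
        (∀ ω, Ev ω → ∀ u a, |(Sv (c := c) (k := k) D z X C S ys gs ω u a : ℝ) / 2 ^ X -
          e0 (Lt D J w i j r ω) u a -
          e1 (Lt D J w i j r ω) u a * ((tq J w X (D.T ω) : ℤ) : ℝ)| ≤ δ) →
        exp (C₄ * z) * (N * (1 / 2 ^ (y * z) + 1 / 2 ^ X + 1 / 2 ^ (Q * z)) + δ) *
          2 ^ (A * z) ≤ 1 →
        ∃ l : Fin c, (gs l = n ∨ R (gs l)) ∧ j + 1 < M ∧
          NewLabT D U J a₀ w₀ z Q R i (j + 1) (gs l) A (kN (max K K') 2) η' q := by
  obtain ⟨F₁, hF₁, HG⟩ := gfS n K K' c k C₀ C₁ Cu gam hC₀ hC₁ hCu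
  obtain ⟨F₂, hF₂, HL⟩ := lab_cell n K K' c k C₀ C₁ hC₀ hC₁
  obtain ⟨c₃, hc₃, HM⟩ := chr_dif n (max K K') C₀ C₁ hC₀ hC₁
  refine ⟨max F₁ (max F₂ c₃), le_max_of_le_left hF₁, fun C hC => ?_⟩
  have hCF₁ : F₁ ≤ C := (le_max_left _ _).trans hC
  have hCF₂ : F₂ ≤ C := (le_max_left _ _).trans ((le_max_right _ _).trans hC)
  have hCc₃ : c₃ ≤ C := (le_max_right _ _).trans ((le_max_right _ _).trans hC)
  obtain ⟨C₂, hC₂, HG⟩ := HG C hCF₁
  obtain ⟨c', hc', HL⟩ := HL C C₂ gam hCF₂ (by linarith)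
  have hcr : (0 : ℝ) ≤ c := Nat.cast_nonneg c
  obtain ⟨C₅, hC₅⟩ : ∃ C₅ : ℝ, C₅ = c + c₃ + c * (c + C₂) := ⟨_, rfl⟩
  have hC₅0 : 0 ≤ C₅ := by
    rw [hC₅]
    positivity
  refine ⟨c' + C₅ + C₂ + 1, by linarith, ?_⟩
  intro D U R J a₀ w₀ z M w i j r r' r'' a y X Q A lam κ q E P S ys gs n₀ H hPl hG hgd hU hn₀ N δ
    η' e0 e1 Ev hN hδ he hη hEE hS hnum
  have hF := H.fx hPl hG hgd
  have hzr : (1 : ℝ) ≤ z := by exact_mod_cast hF.z1
  have hN0 : 0 ≤ N := by linarith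
  -- the first coordinate
  obtain ⟨l, hl, hlmin⟩ := first_l R hn₀
  obtain ⟨Fz, hFz⟩ : ∃ Fz : Finset (Fin c), Fz = univ.filter (fun g => gs g < n ∧ ¬ R (gs g)) :=
    ⟨_, rfl⟩
  have hFz' : ∀ g, g ∈ Fz ↔ gs g < n ∧ ¬ R (gs g) := by
    intro g
    rw [hFz, Finset.mem_filter]
    exact ⟨fun h => h.2, fun h => ⟨Finset.mem_univ _, h⟩⟩
  have hlF : l ∉ Fz := by
    rw [hFz']
    rintro ⟨h1, h2⟩
    rcases hl with h3 | h3
    · omega
    · exact h2 h3
  have hlow : ∀ g, g < l → g ∈ Fz := by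
    intro g hg
    rw [hFz']
    have h1 := hlmin g hg
    push Not at h1
    exact ⟨lt_of_le_of_ne (H.gs_gr g).2.1 h1.1, h1.2⟩
  obtain ⟨fD, fL, p0, p1, hgf⟩ := HG D U R J a₀ w₀ z M w i j r r' r'' a y X Q lam κ q E P S ys gs H
    hPl hG hgd hU Fz hFz'
  have haz : exp (c₃ * z) ≤ 2 ^ (a * z) := by
    have h1 := H.yX
    have h2 : exp (C * z) ≤ exp (C * z) * 2 ^ X :=
      le_mul_of_one_le_right (exp_pos _).le (one_le_pow₀ one_le_two)
    have h3 : (2 : ℝ) ^ (y * z) ≤ 2 ^ (a * z) :=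
      pow_le_pow_right₀ one_le_two (Nat.mul_le_mul_right z hF.ya)
    exact (ex_mono hCc₃ hzr).trans (h2.trans (h1.trans h3))
  obtain ⟨hcM, -⟩ := HM D K K' J a₀ w₀ z M i j r r' a y lam gam κ q E P _ _ hF haz
  -- the rows
  have hrow : ∀ ω, Ev ω → ∃ rr : Fin c → ℝ, (∀ g, |rr g| ≤ exp (C₅ * z)) ∧ ∀ u,
      ((Pi.single l 1 : Fin c → ℝ) ᵥ*
          MF i j r E (rcd D i j r a) (cMx D J a₀ z i j r a E P gs) ω) u -
        (Pi.single l 1 : Fin c → ℝ) u + ∑ g ∈ Fz, rr g * fL (Lt D J w i j r ω) g u = 0 := by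
    intro ω hω
    have hEω := (hEE ω hω).1
    have hMF : MF i j r E (rcd D i j r a) (cMx D J a₀ z i j r a E P gs) ω =
        cMx D J a₀ z i j r a E P gs (bb D i j r ω) (rcd D i j r a ω) := by
      unfold MF
      rw [if_pos hEω]
    rw [hMF]
    obtain ⟨rr, r1, r2⟩ := unit_cov l (F := fL (Lt D J w i j r ω)) (G := exp (C₂ * z))
      (B := exp (c₃ * z)) (ex_one (by linarith) hzr) Fz hlow (fun g hg => hgf.ldL _ g hg)
      (cMx_uni H hF hEω) (fun u v => by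
        unfold cMx
        rw [Matrix.of_apply]
        exact hcM ω hEω (gs u) (H.gs_gr u).2.1 (gs v))
    refine ⟨rr, fun g => (r1 g).trans ?_, r2⟩
    rw [hC₅]
    exact num_T (by linarith) hzr
  -- the label
  have hE5 : 1 ≤ exp (C₅ * z) := ex_one hC₅0 hzr
  have hNN : N ≤ exp (C₅ * z) * N := le_mul_of_one_le_left hN0 hE5
  have hN1 : 1 ≤ exp (C₅ * z) * N := hN.trans hNN
  have hres := HL D U R J a₀ w₀ z M w i j r r' r'' y a X Q A lam κ q E P S ys gs H hPl hG hgd hU Fz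
    l (exp (C₅ * z) * N) δ (exp (C₂ * z) * (1 / 2 ^ (y * z) + 1 / 2 ^ (Q * z))) η'
    (fun _ => Pi.single l 1) (fun _ => Pi.single l 1) (fun x a => e0 x l a)
    (fun x a => e1 x l a) fL p0 p1 Ev hlF hN1 hδ (by positivity)
    (fun _ => ⟨ld_single l, fun u => single_le l u hN1⟩)
    (fun _ => ⟨ld_single l, fun u => single_le l u hN1⟩)
    (fun x a => ⟨(he x l a).1.trans hNN, (he x l a).2.trans hNN⟩)
    hgf.ldL (fun x g hg a => ⟨(hgf.pb x g hg a).1, (hgf.pb x g hg a).2, hgf.pz x g hg a⟩) hη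
    (fun ω h => (hEE ω h).1) ?_ ?_ (fun ω h g hg b => hgf.af ω (hEE ω h) g hg b)
    (fun ω h g hg hgl b hb => hgf.bx ω (hEE ω h) l g hg hgl b hb) ?_
  · exact ⟨l, hl, hres⟩
  · intro ω hω
    obtain ⟨rr, r1, r2⟩ := hrow ω hω
    refine ⟨rr, fun g => (r1 g).trans (le_mul_of_one_le_right (exp_pos _).le hN), fun u => ?_⟩
    rw [r2 u, abs_zero]
    exact hδ
  · intro ω hω b
    have h1 : ∑ u, (Pi.single l 1 : Fin c → ℝ) u *
        ((Sv (c := c) (k := k) D z X C S ys gs ω u b : ℝ) / 2 ^ X) =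
        (Sv (c := c) (k := k) D z X C S ys gs ω l b : ℝ) / 2 ^ X := by
      rw [Finset.sum_eq_single l]
      · rw [Pi.single_eq_same, one_mul]
      · intro u _ hu
        rw [Pi.single_eq_of_ne hu, zero_mul]
      · intro h
        exact absurd (mem_univ l) h
    rw [h1]
    exact hS ω hω l b
  · refine le_trans ?_ hnum
    refine mul_le_mul_of_nonneg_right ?_ (by positivity)
    obtain ⟨W, hW⟩ : ∃ W : ℝ, W = 1 / 2 ^ (y * z) + 1 / 2 ^ X + 1 / 2 ^ (Q * z) := ⟨_, rfl⟩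
    have hW0 : 0 ≤ W := by
      rw [hW]
      positivity
    have hE2 : 1 ≤ exp (C₂ * z) := ex_one (by linarith) hzr
    have h2 : (2 : ℝ) ≤ exp (1 * z) := by
      have := Real.add_one_le_exp (1 * (z : ℝ))
      linarith
    have p1' : (0 : ℝ) ≤ 1 / 2 ^ (y * z) := by positivity
    have p2' : (0 : ℝ) ≤ 1 / 2 ^ X := by positivity
    have p3' : (0 : ℝ) ≤ 1 / 2 ^ (Q * z) := by positivity
    have h3 : 1 / 2 ^ (y * z) + 1 / 2 ^ X +
        exp (C₂ * z) * (1 / 2 ^ (y * z) + 1 / 2 ^ (Q * z)) ≤ 2 * (exp (C₂ * z) * W) := by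
      rw [hW]
      nlinarith
    have h4 : 1 / 2 ^ (y * z) + 1 / 2 ^ X +
        exp (C₂ * z) * (1 / 2 ^ (y * z) + 1 / 2 ^ (Q * z)) ≤ exp ((C₂ + 1) * z) * W := by
      refine h3.trans ?_
      calc 2 * (exp (C₂ * z) * W) ≤ exp (1 * z) * (exp (C₂ * z) * W) :=
            mul_le_mul_of_nonneg_right h2 (by positivity)
        _ = _ := by
            rw [← mul_assoc, ← exp_add]
            ring_nf
    calc exp (c' * z) * (exp (C₅ * z) * N * (1 / 2 ^ (y * z) + 1 / 2 ^ X +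
          exp (C₂ * z) * (1 / 2 ^ (y * z) + 1 / 2 ^ (Q * z))) + δ) ≤
        exp (c' * z) * (exp (C₅ * z) * N * (exp ((C₂ + 1) * z) * W) +
          exp (C₅ * z) * exp ((C₂ + 1) * z) * δ) := by
          refine mul_le_mul_of_nonneg_left (add_le_add ?_ ?_) (exp_pos _).le
          · exact mul_le_mul_of_nonneg_left h4 (by positivity)
          · refine le_mul_of_one_le_left hδ ?_
            exact one_le_mul_of_one_le_of_one_le hE5 (ex_one (by linarith) hzr)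
      _ = exp ((c' + C₅ + C₂ + 1) * z) * (N * W + δ) := by
          have e1 : exp ((c' + C₅ + C₂ + 1) * z) =
              exp (c' * z) * exp (C₅ * z) * exp ((C₂ + 1) * z) := by
            rw [← exp_add, ← exp_add]
            ring_nf
          rw [e1]
          ring
      _ = _ := by rw [hW]

end Pool.TT30
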