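import Pool.Agent.H30.TT.Lab
import Pool.Agent.H52.P5.Lab5

/-!
# (T): the label of a cell whose own slopes are polynomials of the time

`labTG`: abstract slow coordinates and group, any degree; the contact covectors are data. `labTd`:
in the letters of P4, the own slopes are polynomials of degree `d` in the time, the coefficients are
functions of the line.
-/

set_option autoImplicit false

namespace Pool.TT30

open Finset Real MvPolynomial Matrix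
open Pool.Agent.H49.Ent Pool.Agent.H32.Dense Pool.STK Pool.STAT Pool.MIC.Frm Pool.MIC7 Pool.FRM
open Pool.GSD Pool.P4
open Pool.BFL (Pb)
open Pool.LBL (Ld Uni)
open Pool.STAT.Glu (kN)
open Pool.P5 (PB lpc lpc_nn Enm Sh5 lab_cell5 dig_fun5)

open Classical in
/-- **The label of a cell** whose own slopes are polynomials of the time. The contact covectors
`fL`, `fp` are data. -/
theorem labTG (n K c k d : ℕ) (C₀ C₁ : ℝ) (hC₀ : 0 ≤ C₀) (hC₁ : 0 ≤ C₁) :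
    ∃ F : ℝ, 1 ≤ F ∧ ∀ (C₂ : ℝ) (gam : ℕ → ℝ), 0 ≤ C₂ → (∀ l, 0 ≤ gam l) → ∃ c' : ℝ, 1 ≤ c' ∧
    ∀ (D : NDat2) (U : GnL D) (R : ℕ → Prop) (K₁ K' J a₀ w₀ z M w i j r r' y a X Q A : ℕ)
      (lam : ℕ → ℝ) (κ : ℝ) (q : D.Ω → ℝ) (E : D.Ω → Prop) (P : D.Γ × D.Γ → ℕ → PN)
      (Sl Gr : ℕ → Prop) (S : D.Ω → ℕ → ℕ → ℝ) (ys : Fin k → ℕ) (gs : Fin c → ℕ) (n₀ : Fin c),
      Fx D n K K₁ K' J a₀ w₀ z M i j r r' a y lam gam κ C₁ C₀ q E P Sl Gr →
      Enm Sl Gr ys gs → Sh5 D n z i j r r' y C₀ E P Sl Gr S →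
      exp (F * z) ≤ 2 ^ (a * z) → j + 1 < M → w₀ + j * z ≤ w → w ≤ w₀ + (j + 1) * z →
      w + X ≤ J → U.Ok n K₁ J a₀ w₀ z M Q R C₁ q → gs n₀ = n →
      ∀ (N δ ε η' : ℝ) (ep : D.Ω → Fin c → Fin k → Polynomial ℝ)
        (fL : D.Ω → Fin c → Fin c → ℝ) (fp : D.Ω → Fin c → Fin k → Polynomial ℝ)
        (Ev : D.Ω → Prop), 1 ≤ N → 0 ≤ δ → 0 ≤ ε → η' ≤ Pb q Ev → (∀ ω, Ev ω → E ω) →
        (∀ ω ω', Ev ω → Ev ω' → D.wn J (w₀ + (j + 1) * z) ω = D.wn J (w₀ + (j + 1) * z) ω' →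
          ep ω = ep ω') →
        (∀ ω, Ev ω → ∀ u a, PB d N (ep ω u a)) →
        (∀ ω, Ev ω → ∀ g, gs g < n → ¬ R (gs g) →
          Ld g (fL ω g) ∧ ∀ u, |fL ω g u| ≤ exp (C₂ * z)) →
        (∀ ω, Ev ω → ∀ g, gs g < n → ¬ R (gs g) → ∀ a, PB d (exp (C₂ * z)) (fp ω g a) ∧
          (gs g < ys a → fp ω g a = 0)) →
        (∀ ω, Ev ω → ∀ u a, |S ω (gs u) (ys a) - (ep ω u a).eval (rt D J w ω)| ≤ δ) →
        (∀ ω, Ev ω → ∀ g, gs g < n → ¬ R (gs g) → ∀ a,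
          |∑ u, fL ω g u * S ω (gs u) (ys a) - (fp ω g a).eval (rt D J w ω)| ≤ ε) →
        (∀ ω, Ev ω → ∀ l g, gs g < n → ¬ R (gs g) → gs g < gs l → ∀ b : ℕ → ℝ,
          NBT D U z Q R i (j + 1) (a₀ + i * z) (gs l) ω b →
          |∑ u, fL ω g u * (nat (D.g i j) (P (bb D i j r ω)) b (gs u) - ze D i j r P ω (gs u)) -
            ∑ a, (fp ω g a).eval (rt D J w ω) *
              (nat (D.g i j) (P (bb D i j r ω)) b (ys a) - ze D i j r P ω (ys a))| ≤ ε) →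
        exp (c' * z) * (N * (1 / 2 ^ (y * z) + ε) + δ) * 2 ^ (A * z) ≤ 1 →
        ∃ l : Fin c, (gs l = n ∨ R (gs l)) ∧
          NewLabT D U J a₀ w₀ z Q R i (j + 1) (gs l) A (kN K (d + 1)) η' q := by
  obtain ⟨F₂, hF₂, HL⟩ := lab_cell5 n K c k d C₀ C₁ hC₀ hC₁
  obtain ⟨c₃, hc₃, HM⟩ := chr_dif n K C₀ C₁ hC₀ hC₁
  refine ⟨max F₂ c₃, le_max_of_le_left hF₂, fun C₂ gam hC₂ hgam => ?_⟩
  obtain ⟨c₄, hc₄, HL⟩ := HL C₂ gam hC₂ hgam
  have hcr : (0 : ℝ) ≤ c := Nat.cast_nonneg c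
  obtain ⟨C₅, hC₅⟩ : ∃ C₅ : ℝ, C₅ = c + c₃ + c * (c + C₂) := ⟨_, rfl⟩
  have hC₅0 : 0 ≤ C₅ := by
    rw [hC₅]
    positivity
  refine ⟨c₄ + C₅, by linarith, ?_⟩
  intro D U R K₁ K' J a₀ w₀ z M w i j r r' y a X Q A lam κ q E P Sl Gr S ys gs n₀ hF hE hSh hFa
    hj1 hw1 hw2 hwX hU hn₀ N δ ε η' ep fL fp Ev hN hδ hε hη hEE hcl hep hfL hfp hS haf hbx hnum
  have hzr : (1 : ℝ) ≤ z := by exact_mod_cast hF.z1
  have hN0 : 0 ≤ N := by linarith
  -- the first coordinate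
  obtain ⟨l, hl, hlmin⟩ := first_l R hn₀
  obtain ⟨Fz, hFz⟩ : ∃ Fz : Finset (Fin c), Fz = univ.filter (fun g => gs g < n ∧ ¬ R (gs g)) :=
    ⟨_, rfl⟩
  have hFz' : ∀ g, g ∈ Fz ↔ gs g < n ∧ ¬ R (gs g) := by
    intro g
    rw [hFz, Finset.mem_filter]
    exact ⟨fun h => h.2, fun h => ⟨Finset.mem_univ _, h⟩⟩
  have hlF : l ∉ Fz := by
    rw [hFz']
    rintro ⟨h1, h2⟩
    rcases hl with h3 | h3
    · omega
    · exact h2 h3
  have hgsn : ∀ u, gs u ≤ n := fun u => (hF.dic.g1 _ (hE.gs1 u)).2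
  have hlow : ∀ g, g < l → g ∈ Fz := by
    intro g hg
    rw [hFz']
    have h1 := hlmin g hg
    push Not at h1
    exact ⟨lt_of_le_of_ne (hgsn g) h1.1, h1.2⟩
  have haz₂ : exp (F₂ * z) ≤ 2 ^ (a * z) := (ex_mono (le_max_left _ _) hzr).trans hFa
  have haz₃ : exp (c₃ * z) ≤ 2 ^ (a * z) := (ex_mono (le_max_right _ _) hzr).trans hFa
  obtain ⟨hcM, -⟩ := HM D K₁ K' J a₀ w₀ z M i j r r' a y lam gam κ q E P Sl Gr hF haz₃
  -- the rows
  have hrow : ∀ ω, Ev ω → ∃ rr : Fin c → ℝ, (∀ g, |rr g| ≤ exp (C₅ * z)) ∧ ∀ u,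
      ∑ v, (Pi.single l 1 : Fin c → ℝ) v *
          cM D J a₀ z i j r a E P (bb D i j r ω) (rcd D i j r a ω) (gs v) (gs u) -
        (Pi.single l 1 : Fin c → ℝ) u + ∑ g ∈ Fz, rr g * fL ω g u = 0 := by
    intro ω hω
    have hEω := hEE ω hω
    obtain ⟨Mx, hMx⟩ : ∃ Mx : Matrix (Fin c) (Fin c) ℝ, Mx = Matrix.of fun v u =>
        cM D J a₀ z i j r a E P (bb D i j r ω) (rcd D i j r a ω) (gs v) (gs u) := ⟨_, rfl⟩
    have hMe : ∀ v u, Mx v u =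
        cM D J a₀ z i j r a E P (bb D i j r ω) (rcd D i j r a ω) (gs v) (gs u) := by
      intro v u
      rw [hMx, Matrix.of_apply]
    have hUni : Uni Mx := by
      refine ⟨fun u => ?_, fun u v huv => ?_⟩
      · rw [hMe, hE.cM_zero hF hEω le_rfl, if_pos rfl]
      · rw [hMe, hE.cM_zero hF hEω huv.le, if_neg huv.ne]
    obtain ⟨rr, r1, r2⟩ := unit_cov l (F := fL ω) (G := exp (C₂ * z))
      (B := exp (c₃ * z)) (ex_one hC₂ hzr) Fz hlow
      (fun g hg => hfL ω hω g ((hFz' g).1 hg).1 ((hFz' g).1 hg).2)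
      hUni (fun u v => by
        rw [hMe]
        exact hcM ω hEω (gs u) (hgsn u) (gs v))
    refine ⟨rr, fun g => (r1 g).trans ?_, fun u => ?_⟩
    · rw [hC₅]
      exact num_T hC₂ hzr
    · have h1 := r2 u
      have h2 : ((Pi.single l 1 : Fin c → ℝ) ᵥ* Mx) u = ∑ v, (Pi.single l 1 : Fin c → ℝ) v *
          cM D J a₀ z i j r a E P (bb D i j r ω) (rcd D i j r a ω) (gs v) (gs u) := by
        show ∑ v, (Pi.single l 1 : Fin c → ℝ) v * Mx v u = _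
        exact Finset.sum_congr rfl fun v _ => by rw [hMe]
      rw [h2] at h1
      exact h1
  -- the label
  have hE5 : 1 ≤ exp (C₅ * z) := ex_one hC₅0 hzr
  have hNN : N ≤ exp (C₅ * z) * N := le_mul_of_one_le_left hN0 hE5
  have hN1 : 1 ≤ exp (C₅ * z) * N := hN.trans hNN
  refine ⟨l, hl, ?_⟩
  refine HL D U R K₁ K' J a₀ w₀ z M w i j r r' y a X Q A lam κ q E P Sl Gr S ys gs hF hE hSh haz₂
    hj1 hw1 hw2 hwX hU Fz l (exp (C₅ * z) * N) δ ε η' (fun _ => Pi.single l 1)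
    (fun _ => Pi.single l 1) (fun ω a => ep ω l a) fL fp Ev hlF hN1 hδ hε hη hEE
    (fun _ _ _ _ _ => rfl) (fun ω ω' h1 h2 h3 => ⟨rfl, by rw [hcl ω ω' h1 h2 h3]⟩)
    (fun _ _ => ⟨ld_single l, fun u => single_le l u hN1⟩)
    (fun _ _ => ⟨ld_single l, fun u => single_le l u hN1⟩)
    (fun ω hω a => (hep ω hω l a).mono le_rfl hNN)
    (fun ω hω g hg => hfL ω hω g ((hFz' g).1 hg).1 ((hFz' g).1 hg).2)
    (fun ω hω g hg => hfp ω hω g ((hFz' g).1 hg).1 ((hFz' g).1 hg).2) ?_ ?_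
    (fun ω hω g hg => haf ω hω g ((hFz' g).1 hg).1 ((hFz' g).1 hg).2)
    (fun ω hω g hg hgl => hbx ω hω l g ((hFz' g).1 hg).1 ((hFz' g).1 hg).2 hgl) ?_
  · intro ω hω
    obtain ⟨rr, r1, r2⟩ := hrow ω hω
    refine ⟨rr, fun g => (r1 g).trans (le_mul_of_one_le_right (exp_pos _).le hN), fun u => ?_⟩
    rw [r2 u, abs_zero]
    exact hδ
  · intro ω hω b
    have h1 : ∑ u, (Pi.single l 1 : Fin c → ℝ) u * S ω (gs u) (ys b) = S ω (gs l) (ys b) := by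
      rw [Finset.sum_eq_single l]
      · rw [Pi.single_eq_same, one_mul]
      · intro u _ hu
        rw [Pi.single_eq_of_ne hu, zero_mul]
      · intro h
        exact absurd (mem_univ l) h
    rw [h1]
    exact hS ω hω l b
  · refine le_trans ?_ hnum
    refine mul_le_mul_of_nonneg_right ?_ (by positivity)
    obtain ⟨W, hW⟩ : ∃ W : ℝ, W = 1 / 2 ^ (y * z) + ε := ⟨_, rfl⟩
    have hW0 : 0 ≤ W := by
      rw [hW]
      positivity
    have e1 : exp ((c₄ + C₅) * z) = exp (c₄ * z) * exp (C₅ * z) := by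
      rw [← exp_add]
      ring_nf
    have h1 : δ ≤ exp (C₅ * z) * δ := le_mul_of_one_le_left hδ hE5
    rw [← hW, e1]
    calc exp (c₄ * z) * (exp (C₅ * z) * N * W + δ) ≤
        exp (c₄ * z) * (exp (C₅ * z) * N * W + exp (C₅ * z) * δ) :=
          mul_le_mul_of_nonneg_left (by linarith) (exp_pos _).le
      _ = _ := by ring

/-- The polynomial with the coefficients `e`. -/
noncomputable def pold {d : ℕ} (e : Fin (d + 1) → ℝ) : Polynomial ℝ :=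
  ∑ s : Fin (d + 1), Polynomial.C (e s) * Polynomial.X ^ (s : ℕ)

theorem pold_ev {d : ℕ} (e : Fin (d + 1) → ℝ) (t : ℝ) :
    (pold e).eval t = ∑ s : Fin (d + 1), e s * t ^ (s : ℕ) := by
  unfold pold
  rw [Polynomial.eval_finsetSum]
  refine Finset.sum_congr rfl fun s _ => ?_
  simp

theorem pold_pb {d : ℕ} {e : Fin (d + 1) → ℝ} {N : ℝ} (h : ∀ s, |e s| ≤ N) :
    PB d N (pold e) := by
  have hN : 0 ≤ N := (abs_nonneg _).trans (h 0)
  refine ⟨?_, fun i => ?_⟩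
  · unfold pold
    refine Polynomial.natDegree_sum_le_of_forall_le _ _ fun s _ => ?_
    exact (Polynomial.natDegree_C_mul_X_pow_le _ _).trans (Nat.lt_succ_iff.1 s.2)
  · have e1 : (pold e).coeff i = ∑ s : Fin (d + 1), if i = (s : ℕ) then e s else 0 := by
      unfold pold
      rw [Polynomial.finsetSum_coeff]
      refine Finset.sum_congr rfl fun s _ => ?_
      rw [Polynomial.coeff_C_mul, Polynomial.coeff_X_pow, mul_ite, mul_one, mul_zero]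
    rw [e1]
    by_cases hi : i < d + 1
    · rw [Finset.sum_eq_single (⟨i, hi⟩ : Fin (d + 1))]
      · rw [if_pos rfl]
        exact h _
      · intro s _ hs
        rw [if_neg]
        intro h1
        exact hs (Fin.ext h1.symm)
      · intro h1
        exact absurd (mem_univ _) h1
    · rw [Finset.sum_eq_zero, abs_zero]
      · exact hN
      · intro s _
        rw [if_neg]
        have := s.2
        omega

open Classical in
/-- **(T), the label of a cell**, own slopes polynomial of degree `d` in the time. -/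
theorem labTd (n K K' c k d : ℕ) (hd : 1 ≤ d) (C₀ C₁ Cu : ℝ) (gam : ℕ → ℝ) (hC₀ : 0 ≤ C₀)
    (hC₁ : 0 ≤ C₁) (hCu : 0 ≤ Cu) : ∃ F : ℝ, 0 ≤ F ∧ ∀ C : ℝ, F ≤ C → ∃ C₄ : ℝ, 1 ≤ C₄ ∧
    ∀ (D : NDat2) (U : GnL D) (R : ℕ → Prop) (J a₀ w₀ z M w i j r r' r'' a y X Q A : ℕ)
      (lam : ℕ → ℝ) (κ : ℝ) (q : D.Ω → ℝ) (E : D.Ω → Prop) (P : D.Γ × D.Γ → ℕ → PN)
      (S : D.Ω → ℕ → ℕ → ℝ) (ys : Fin k → ℕ) (gs : Fin c → ℕ) (n₀ : Fin c),
      Hyp D n K K' J a₀ w₀ z M w i j r r' r'' y X lam gam κ C₁ C q E P S ys gs →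
      Plc n gam y r r' r'' a M i j →
      Geo D n K' J w₀ z i j r r' r'' gam C₀ (exp (C₀ * z) / 2 ^ (y * z)) q E P S →
      (∀ ω, E ω → 0 < q ω ∧ GoodS D n K' w₀ z M C₀ ω ∧
        FrP D n K' z i j r C₀ (P (bb D i j r ω)) ω) →
      U.Ok n K J a₀ w₀ z M Q R C₁ q → gs n₀ = n →
      ∀ (N δ η' : ℝ) (e : LT D → Fin (d + 1) → Fin c → Fin k → ℝ) (Ev : D.Ω → Prop), 1 ≤ N →
        0 ≤ δ → (∀ x s u a, |e x s u a| ≤ N) → η' ≤ Pb q Ev →
        (∀ ω, Ev ω → E ω ∧ GoodU D U n J w₀ z M R Cu ω) →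
        (∀ ω, Ev ω → ∀ u a, |(Sv (c := c) (k := k) D z X C S ys gs ω u a : ℝ) / 2 ^ X -
          ∑ s : Fin (d + 1), e (Lt D J w i j r ω) s u a *
            (((tq J w X (D.T ω) : ℤ) : ℝ) / 2 ^ X) ^ (s : ℕ)| ≤ δ) →
        exp (C₄ * z) * (N * (1 / 2 ^ (y * z) + 1 / 2 ^ X + 1 / 2 ^ (Q * z)) + δ) *
          2 ^ (A * z) ≤ 1 →
        ∃ l : Fin c, (gs l = n ∨ R (gs l)) ∧ j + 1 < M ∧
          NewLabT D U J a₀ w₀ z Q R i (j + 1) (gs l) A (kN (max K K') (d + 1)) η' q := by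
  obtain ⟨F₁, hF₁, HG⟩ := gfS n K K' c k C₀ C₁ Cu gam hC₀ hC₁ hCu
  obtain ⟨F₂, hF₂, HL⟩ := labTG n (max K K') c k d C₀ C₁ hC₀ hC₁
  refine ⟨max F₁ F₂, le_max_of_le_left hF₁, fun C hC => ?_⟩
  have hCF₁ : F₁ ≤ C := (le_max_left _ _).trans hC
  have hCF₂ : F₂ ≤ C := (le_max_right _ _).trans hC
  have hC0 : 0 ≤ C := by linarith
  obtain ⟨C₂, hC₂, HG⟩ := HG C hCF₁
  by_cases hgam : ∀ l, 0 ≤ gam l
  swap
  · refine ⟨1, le_rfl, ?_⟩
    intro D U R J a₀ w₀ z M w i j r r' r'' a y X Q A lam κ q E P S ys gs n₀ H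
    exact absurd H.gam0 hgam
  obtain ⟨c₄, hc₄, HL⟩ := HL C₂ gam (by linarith) hgam
  have hl2 := lpc_nn d
  have hcr : (0 : ℝ) ≤ c := Nat.cast_nonneg c
  obtain ⟨C₅, hC₅⟩ : ∃ C₅ : ℝ, C₅ = C + (1 + lpc d) + C₂ := ⟨_, rfl⟩
  have hC₅0 : 0 ≤ C₅ := by
    rw [hC₅]
    linarith
  refine ⟨c₄ + C₅ + C₂ + 2, by linarith, ?_⟩
  intro D U R J a₀ w₀ z M w i j r r' r'' a y X Q A lam κ q E P S ys gs n₀ H hPl hG hgd hU hn₀ N δ
    η' e Ev hN hδ he hη hEE hS hnum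
  have hF := H.fx hPl hG hgd
  have hzr : (1 : ℝ) ≤ z := by exact_mod_cast hF.z1
  have hN0 : 0 ≤ N := by linarith
  have hX0 : (0 : ℝ) < 2 ^ X := by positivity
  have hX1 : (1 : ℝ) ≤ 2 ^ X := one_le_pow₀ (by norm_num)
  have hO := H.ok
  have hr1 : 1 ≤ r := by
    have := hPl.stp.s2'
    have := hPl.y1
    omega
  have hj1 : j + 1 < M := by
    have := H.j2
    omega
  have hiM : i ≤ M := hF.iM.le
  obtain ⟨Fz, hFz⟩ : ∃ Fz : Finset (Fin c), Fz = univ.filter (fun g => gs g < n ∧ ¬ R (gs g)) :=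
    ⟨_, rfl⟩
  have hFz' : ∀ g, g ∈ Fz ↔ gs g < n ∧ ¬ R (gs g) := by
    intro g
    rw [hFz, Finset.mem_filter]
    exact ⟨fun h => h.2, fun h => ⟨Finset.mem_univ _, h⟩⟩
  obtain ⟨fD, fL, p0, p1, hgf⟩ := HG D U R J a₀ w₀ z M w i j r r' r'' a y X Q lam κ q E P S ys gs H
    hPl hG hgd hU Fz hFz'
  have haz : exp (F₂ * z) ≤ 2 ^ (a * z) := by
    have h1 := H.yX
    have h2 : exp (C * z) ≤ exp (C * z) * 2 ^ X :=
      le_mul_of_one_le_right (exp_pos _).le hX1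
    have h3 : (2 : ℝ) ^ (y * z) ≤ 2 ^ (a * z) :=
      pow_le_pow_right₀ one_le_two (Nat.mul_le_mul_right z hF.ya)
    exact (ex_mono hCF₂ hzr).trans (h2.trans (h1.trans h3))
  have hEnm : Enm (sl gam n) (gr gam n) ys gs :=
    ⟨H.ys_in, H.gs_in, H.ys_sl, H.gs_gr, fun _ hl => H.ys_on _ hl, fun _ hl => H.gs_on _ hl⟩
  have hSh : Sh5 D n z i j r r' y C₀ E P (sl gam n) (gr gam n) S :=
    { tS := fun ω hω u k huk => hG.tS ω (hgd ω hω).1 hω u k huk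
      sheet := fun ω hω Bx hB b h0 h1 h2 u hu =>
        hG.sheet ω (hgd ω hω).1 hω Bx hB b h0 h1 h2 u hu }
  have hE5 : 1 ≤ exp (C₅ * z) := ex_one hC₅0 hzr
  have eC : 1 ≤ exp (C * z) := ex_one hC0 hzr
  have eC5 : exp (C₅ * z) = exp (C * z) * exp ((1 + lpc d) * z) * exp (C₂ * z) := by
    rw [← exp_add, ← exp_add, hC₅]
    ring_nf
  have e2 : 1 ≤ exp (C₂ * z) := ex_one (by linarith) hzr
  have el : 1 + (1 + lpc d) ≤ exp ((1 + lpc d) * z) := by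
    have h1 := Real.add_one_le_exp ((1 + lpc d) * (z : ℝ))
    have h2 : 1 + lpc d ≤ (1 + lpc d) * z := le_mul_of_one_le_right (by linarith) hzr
    linarith
  have hNx : 0 ≤ N / 2 ^ X := by positivity
  have hEC : exp (C * z) ≤ exp (C₅ * z) := ex_mono (by rw [hC₅]; linarith) hzr
  have hrt : ∀ ω, |rt D J w ω| ≤ 1 ∧ |(tq J w X (D.T ω) : ℝ) - 2 ^ X * rt D J w ω| ≤ 1 :=
    fun ω => rt_near (hO.X_zero ω) H.wX
  have hres := HL D U R K K' J a₀ w₀ z M w i j r r' y a X Q A lam κ q E P (sl gam n)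
    (gr gam n) S ys gs n₀ hF hEnm hSh haz hj1 H.w1 H.w2 H.wX hU hn₀ (exp (C₅ * z) * N)
    (exp (C₅ * z) * (δ + N / 2 ^ X)) (exp (C₂ * z) * (1 / 2 ^ (y * z) + 1 / 2 ^ (Q * z))) η'
    (fun ω u b => Polynomial.C (exp (C * z)) * pold (fun s => e (Lt D J w i j r ω) s u b))
    (fun ω => fL (Lt D J w i j r ω))
    (fun ω g b => pold (d := 1) ![p0 (Lt D J w i j r ω) g b, p1 (Lt D J w i j r ω) g b]) Ev
    (hN.trans (le_mul_of_one_le_left hN0 hE5)) (by positivity) (by positivity) hη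
    (fun ω h => (hEE ω h).1) ?_ ?_ ?_ ?_ ?_ ?_ ?_ ?_
  · obtain ⟨l, hl, hres⟩ := hres
    exact ⟨l, hl, hj1, hres⟩
  · intro ω ω' hω hω' h
    have hbb := bb_wn hO hiM hj1.le r ω ω' (hgd ω (hEE ω hω).1).1 (hgd ω' (hEE ω' hω').1).1 h
    have hw : D.wn J w ω = D.wn J w ω' := by
      simp only [NDat2.wn, Prod.mk.injEq] at h ⊢
      refine ⟨h.1, win_le H.w2 ?_ h.2⟩
      have t1 := hO.thin
      have t2 := hO.top
      have t3 : (j + 1) * z ≤ (M + 1) * z := Nat.mul_le_mul_right z (by omega)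
      omega
    have hLL : Lt D J w i j r ω = Lt D J w i j r ω' := by
      unfold Lt
      rw [hbb, hw]
    rw [hLL]
  · intro ω _ u b
    refine (Pool.P5.PB.mulC (pold_pb fun s => he _ s u b) (exp_pos _).le).mono le_rfl ?_
    exact mul_le_mul_of_nonneg_right hEC hN0
  · intro ω _ g h1 h2
    exact hgf.ldL _ g ((hFz' g).2 ⟨h1, h2⟩)
  · intro ω _ g h1 h2 b
    have hg := (hFz' g).2 ⟨h1, h2⟩
    have hb := hgf.pb (Lt D J w i j r ω) g hg b
    refine ⟨(pold_pb fun s => ?_).mono hd le_rfl, fun h3 => ?_⟩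
    · fin_cases s
      · exact hb.1
      · exact hb.2
    · obtain ⟨z1, z2⟩ := hgf.pz (Lt D J w i j r ω) g hg b h3
      unfold pold
      rw [Fin.sum_univ_two]
      simp [z1, z2]
  · intro ω hω u b
    have h0 := hS ω hω u b
    have h1 := dig_fun5 (c := 1) (X := X) (z := z) (d := d) (C := C) (N := N) (δ := δ)
      (τ := rt D J w ω) (t := (tq J w X (D.T ω) : ℤ)) (f := fun _ => 1)
      (s := fun _ => S ω (gs u) (ys b)) (p := pold fun s => e (Lt D J w i j r ω) s u b)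
      (fun _ => H.geo.bS ω (hgd ω (hEE ω hω).1).1 (hEE ω hω).1 (gs u) (ys b))
      (fun _ => by rw [abs_one]; exact hN) hN0 (pold_pb fun s => he _ s u b)
      (by have := (hrt ω).2; push_cast; exact this) (hrt ω).1 (by
        rw [Finset.sum_const, Finset.card_univ, Fintype.card_fin, one_smul, one_mul, pold_ev]
        exact h0)
    rw [Finset.sum_const, Finset.card_univ, Fintype.card_fin, one_smul, one_mul] at h1
    refine h1.trans ?_
    rw [eC5]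
    push_cast
    have k1 : δ + (1 + lpc d) * (N / 2 ^ X) ≤ exp ((1 + lpc d) * z) * (δ + N / 2 ^ X) := by
      nlinarith
    calc exp (C * z) * (δ + (1 + lpc d) * (N / 2 ^ X)) ≤
        exp (C * z) * (exp ((1 + lpc d) * z) * (δ + N / 2 ^ X)) :=
          mul_le_mul_of_nonneg_left k1 (exp_pos _).le
      _ = exp (C * z) * exp ((1 + lpc d) * z) * 1 * (δ + N / 2 ^ X) := by ring
      _ ≤ _ := by
        refine mul_le_mul_of_nonneg_right ?_ (by positivity)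
        exact mul_le_mul_of_nonneg_left e2 (by positivity)
  · intro ω hω g h1 h2 b
    rw [pold_ev, Fin.sum_univ_two]
    have := hgf.af ω (hEE ω hω) g ((hFz' g).2 ⟨h1, h2⟩) b
    simpa using this
  · intro ω hω l g h1 h2 h3 b hb
    have := hgf.bx ω (hEE ω hω) l g ((hFz' g).2 ⟨h1, h2⟩) h3 b hb
    simp only [pold_ev]
    simpa using this
  · refine le_trans ?_ hnum
    refine mul_le_mul_of_nonneg_right ?_ (by positivity)
    obtain ⟨W, hW⟩ : ∃ W : ℝ, W = 1 / 2 ^ (y * z) + 1 / 2 ^ X + 1 / 2 ^ (Q * z) := ⟨_, rfl⟩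
    have hW0 : 0 ≤ W := by
      rw [hW]
      positivity
    have p1' : (0 : ℝ) ≤ 1 / 2 ^ (y * z) := by positivity
    have p2' : (0 : ℝ) ≤ 1 / 2 ^ X := by positivity
    have p3' : (0 : ℝ) ≤ 1 / 2 ^ (Q * z) := by positivity
    have h3 : 1 / 2 ^ (y * z) + exp (C₂ * z) * (1 / 2 ^ (y * z) + 1 / 2 ^ (Q * z)) ≤
        2 * (exp (C₂ * z) * W) := by
      rw [hW]
      nlinarith
    have h4 : N / 2 ^ X ≤ exp (C₂ * z) * (N * W) := by
      have a1 : N / 2 ^ X ≤ N * W := by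
        rw [hW, div_eq_mul_one_div]
        exact mul_le_mul_of_nonneg_left (by linarith) hN0
      exact a1.trans (le_mul_of_one_le_left (by positivity) e2)
    have h5 : (3 : ℝ) ≤ exp (2 * z) := by
      have := Real.add_one_le_exp (2 * (z : ℝ))
      linarith
    have e5 : exp ((c₄ + C₅ + C₂ + 2) * z) =
        exp (c₄ * z) * exp (C₅ * z) * exp (C₂ * z) * exp (2 * z) := by
      rw [← exp_add, ← exp_add, ← exp_add]
      ring_nf
    obtain ⟨Y, hY⟩ : ∃ Y : ℝ, Y = exp (c₄ * z) * exp (C₅ * z) := ⟨_, rfl⟩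
    have hY0 : 0 ≤ Y := by
      rw [hY]
      positivity
    have k1 : exp (C₅ * z) * N * (1 / 2 ^ (y * z) +
        exp (C₂ * z) * (1 / 2 ^ (y * z) + 1 / 2 ^ (Q * z))) ≤
        exp (C₅ * z) * N * (2 * (exp (C₂ * z) * W)) :=
      mul_le_mul_of_nonneg_left h3 (by positivity)
    have k2 : exp (C₅ * z) * (δ + N / 2 ^ X) ≤
        exp (C₅ * z) * (exp (C₂ * z) * δ + exp (C₂ * z) * (N * W)) :=
      mul_le_mul_of_nonneg_left (add_le_add (le_mul_of_one_le_left hδ e2) h4) (exp_pos _).le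
    rw [e5, ← hW]
    calc exp (c₄ * z) * (exp (C₅ * z) * N * (1 / 2 ^ (y * z) +
          exp (C₂ * z) * (1 / 2 ^ (y * z) + 1 / 2 ^ (Q * z))) +
          exp (C₅ * z) * (δ + N / 2 ^ X)) ≤
        exp (c₄ * z) * (exp (C₅ * z) * N * (2 * (exp (C₂ * z) * W)) +
          exp (C₅ * z) * (exp (C₂ * z) * δ + exp (C₂ * z) * (N * W))) :=
          mul_le_mul_of_nonneg_left (add_le_add k1 k2) (exp_pos _).le
      _ = Y * exp (C₂ * z) * (3 * (N * W) + δ) := by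
          rw [hY]
          ring
      _ ≤ Y * exp (C₂ * z) * (exp (2 * z) * (N * W) + exp (2 * z) * δ) := by
          refine mul_le_mul_of_nonneg_left (add_le_add ?_ ?_) (by positivity)
          · exact mul_le_mul_of_nonneg_right h5 (by positivity)
          · exact le_mul_of_one_le_left hδ (by linarith)
      _ = _ := by
          rw [hY]
          ring

end Pool.TT30
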